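import Pool.Agent.P8H39.TI.Stm6
import Pool.Agent.P8H75.TI.Ps
import Pool.Agent.P8H54.TI.Pol

/-! # Package NUL of project TI (helper68) -/

set_option autoImplicit false

namespace Pool.Agent.P8H68.TI

open Finset Polynomial Pool.Agent.P8H39.TI Pool.Agent.P8H54.TI Pool.Agent.P8H75.TI

noncomputable section

/-- the strict form of WIL -/
theorem wil_strict (hA : S_WA) (hS : S_STR) {n k t : ℕ} (ht : 1 ≤ t) (htk : t < k)
    (hnk : (t + 1) * (k - t + 1) + 1 ≤ n) :
    ∃ P : Polynomial ℝ, P.degree < (t : WithBot ℕ) ∧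
      (∀ j, 1 ≤ j → j ≤ t → ev n k P j = -1) ∧ (∀ j, t < j → j ≤ k → -1 < ev n k P j) := by
  obtain ⟨κ, rfl⟩ : ∃ κ, k = t + κ := ⟨k - t, by omega⟩
  have hκ : 1 ≤ κ := by omega
  have e0 : t + κ - t = κ := by omega
  rw [e0] at hnk
  have hexp : (t + 1) * (κ + 1) = t * κ + t + κ + 1 := by ring
  have hmul : t + κ ≤ t * κ + 1 := by
    obtain ⟨a, rfl⟩ : ∃ a, t = a + 1 := ⟨t - 1, by omega⟩
    obtain ⟨b, rfl⟩ : ∃ b, κ = b + 1 := ⟨κ - 1, by omega⟩
    have : (a + 1) * (b + 1) = a * b + a + b + 1 := by ring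
    omega
  have h2k : 2 * (t + κ) ≤ n := by omega
  obtain ⟨hW1, hW2⟩ := hA n (t + κ) t ht htk h2k
  set P : Polynomial ℝ := ∑ b ∈ range t,
    C ((-1 : ℝ) ^ (t - 1 - b) * ((t + κ - 1 - b).choose (t + κ - t) : ℝ) /
      ((n - (t + κ) - t + b).choose (t + κ - t) : ℝ) /
      ((b.factorial : ℝ) * ((n - 2 * (t + κ) + b).factorial : ℝ))) * NB n (t + κ) b with hP
  have hev : ∀ j, j ≤ t + κ → ev n (t + κ) P j = theta n (t + κ) t j := by
    intro j hj
    unfold ev theta
    rw [hP, eval_finsetSum, mul_sum]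
    refine sum_congr rfl fun b _ => ?_
    rw [eval_mul, eval_C]
    have h4 := key n (t + κ) j h2k hj b
    have f1 : (b.factorial : ℝ) ≠ 0 := by exact_mod_cast (Nat.factorial_pos _).ne'
    have f2 : ((n - 2 * (t + κ) + b).factorial : ℝ) ≠ 0 := by exact_mod_cast (Nat.factorial_pos _).ne'
    set c := (-1 : ℝ) ^ (t - 1 - b) * ((t + κ - 1 - b).choose (t + κ - t) : ℝ) /
      ((n - (t + κ) - t + b).choose (t + κ - t) : ℝ)
    calc (-1 : ℝ) ^ j * w n (t + κ) j * (c / ((b.factorial : ℝ) * ((n - 2 * (t + κ) + b).factorial : ℝ)) *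
          (NB n (t + κ) b).eval (y n j))
        = (-1 : ℝ) ^ j * (c / ((b.factorial : ℝ) * ((n - 2 * (t + κ) + b).factorial : ℝ))) *
          (w n (t + κ) j * (NB n (t + κ) b).eval (y n j)) := by ring
      _ = _ := by
          rw [h4]
          field_simp
  refine ⟨P, ?_, ?_, ?_⟩
  · rw [degree_lt_iff_coeff_zero]
    intro m hm
    rw [hP, finsetSum_coeff]
    refine sum_eq_zero fun b hb => ?_
    rw [mem_range] at hb
    rw [coeff_C_mul, coeff_eq_zero_of_natDegree_lt (by rw [(NB_deg n (t + κ) b).1]; omega), mul_zero]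
  · intro j hj1 hjt
    rw [hev j (by omega)]
    exact hW1 j hj1 hjt
  · intro j htj hjk
    rw [hev j hjk]
    obtain ⟨m, rfl⟩ : ∃ m, j = t + m := ⟨j - t, by omega⟩
    rw [hW2 m (by omega) hjk, e0]
    have hT0 : 0 ≤ TT t m κ (n - (t + κ) - t) := by
      unfold TT
      exact sum_nonneg fun a _ => by positivity
    rcases Nat.even_or_odd (m - 1) with he | ho
    · rw [he.neg_one_pow]
      linarith
    · rw [ho.neg_one_pow]
      have hm2 : 2 ≤ m := by
        obtain ⟨q, hq⟩ := ho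
        omega
      have h1 : t * (κ - 1) + 2 ≤ n - (t + κ) - t := by
        have : t * (κ - 1) = t * κ - t := by
          rw [Nat.mul_sub, mul_one]
        omega
      have h2 := hS t m κ (n - (t + κ) - t) ht hm2 (by omega) h1 (by omega)
      linarith

/-- the size of the star -/
theorem card_star {n k t : ℕ} {T : Finset (Fin n)} (hT : T.card = t) (htk : t ≤ k) :
    (star k T).card = (n - t).choose (k - t) := by
  have h1 : (n - t).choose (k - t) = (powersetCard (k - t) Tᶜ).card := by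
    rw [card_powersetCard, card_compl, hT, Fintype.card_fin]
  rw [h1]
  refine card_nbij' (fun A => A \ T) (fun B => B ∪ T) ?_ ?_ ?_ ?_
  · intro A hA
    have h2 := mem_filter.1 (mem_coe.1 hA)
    have h3 := (mem_powersetCard.1 h2.1).2
    refine mem_coe.2 (mem_powersetCard.2 ⟨fun x hx => mem_compl.2 (mem_sdiff.1 hx).2, ?_⟩)
    rw [card_sdiff_of_subset h2.2, h3, hT]
  · intro B hB
    have h2 := mem_powersetCard.1 (mem_coe.1 hB)
    have h3 : Disjoint B T := by
      rw [disjoint_left]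
      intro x hx hx2
      exact mem_compl.1 (h2.1 hx) hx2
    refine mem_coe.2 (mem_filter.2 ⟨mem_powersetCard.2 ⟨subset_univ _, ?_⟩, subset_union_right⟩)
    rw [card_union_of_disjoint h3, h2.2, hT]
    omega
  · intro A hA
    exact sdiff_union_of_subset (mem_filter.1 (mem_coe.1 hA)).2
  · intro B hB
    have h2 := mem_powersetCard.1 (mem_coe.1 hB)
    have h3 : Disjoint B T := by
      rw [disjoint_left]
      intro x hx hx2
      exact mem_compl.1 (h2.1 hx) hx2
    show (B ∪ T) \ T = B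
    rw [union_sdiff_right, sdiff_eq_self_of_disjoint h3]

/-- NUL -/
theorem t_NUL (hA : S_WA) (hS : S_STR) (hHB : S_HB) (hPOL : S_POL) : S_NUL := by
  intro n k t F x ht htk hn hF hcard x0 x1 x2 x3
  have hn' : (t + 1) * (k - t + 1) ≤ n := by omega
  have h2k := two_k ht htk hn'
  obtain ⟨P, dP, hP1, hP2⟩ := wil_strict hA hS ht htk hn
  -- the star
  obtain ⟨T, -, hT⟩ := exists_subset_card_eq (s := (univ : Finset (Fin n))) (n := t)
    (by rw [card_univ, Fintype.card_fin]; omega)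
  have hSt : TInt k t (star k T) := star_tint hT
  obtain ⟨z, z0, z1, z2, z3, z4, z5⟩ := data hHB hPOL htk.le h2k hSt
  have z6 := z5 (star_dn hT)
  have hSc : (star k T).card = F.card := by rw [card_star hT htk.le, hcard]
  rw [hSc] at z1 z2
  have hC : (0 : ℝ) < (n.choose k : ℝ) := by
    exact_mod_cast Nat.choose_pos (by omega)
  have hxz : x 0 = z 0 := by
    have : x 0 * (n.choose k : ℝ) = z 0 * (n.choose k : ℝ) := by rw [x2, z2]
    exact mul_right_cancel₀ hC.ne' this
  -- the identities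
  have x4 : ∑ j ∈ range (k + 1), ev n k P j * x j = 0 := by
    refine hPOL n k t htk.le h2k x (fun i hi hik => ?_) P dP
    rw [← x3 i hik]
    exact pair_zero hF hi
  have a2 := sum_P (s := t) le_rfl htk.le hP1 (fun j _ h1 h2 => absurd h2 (by omega)) x4
  have b2 := sum_P (s := t) le_rfl htk.le hP1 (fun j _ h1 h2 => absurd h2 (by omega)) (z4 P dP)
  have c0 : ∀ j ∈ Ico (t + 1) (k + 1), z j = 0 := by
    intro j hj
    rw [mem_Ico] at hj
    exact z6 j (by omega) (by omega)
  have c1 : ∑ j ∈ Ico (t + 1) (k + 1), ev n k P j * z j = 0 :=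
    sum_eq_zero fun j hj => by rw [c0 j hj, mul_zero]
  have c3 : ∑ j ∈ Ico (t + 1) (k + 1), z j = 0 := sum_eq_zero c0
  have d1 := split_sum htk.le x
  have d2 := split_sum htk.le z
  have e1 : ∑ j ∈ Ico (t + 1) (k + 1), (1 + ev n k P j) * x j = 0 := by
    have : ∑ j ∈ Ico (t + 1) (k + 1), (1 + ev n k P j) * x j =
        ∑ j ∈ Ico (t + 1) (k + 1), x j + ∑ j ∈ Ico (t + 1) (k + 1), ev n k P j * x j := by
      rw [← sum_add_distrib]
      exact sum_congr rfl fun j _ => by ring
    rw [this]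
    rw [hxz] at a2
    linarith
  have e2 : ∀ j ∈ Ico (t + 1) (k + 1), 0 ≤ (1 + ev n k P j) * x j := by
    intro j hj
    rw [mem_Ico] at hj
    have := hP2 j (by omega) (by omega)
    exact mul_nonneg (by linarith) (x0 j)
  intro j hj hjk
  have e3 := (sum_eq_zero_iff_of_nonneg e2).1 e1 j (mem_Ico.2 ⟨by omega, by omega⟩)
  have e4 := hP2 j hj hjk
  rcases mul_eq_zero.1 e3 with h | h
  · linarith
  · exact h

end

end Pool.Agent.P8H68.TI
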